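import Pool.Agent.H930Z.Dir.Spec

/-! Bessel data and the disc eigenfunction. -/

open Set Filter Topology Real

noncomputable section

namespace H930Z.Dir

namespace H311

def a (n k : ℕ) (t : ℝ) : ℝ := (-t / 4) ^ k / ((k.factorial : ℝ) * ((k + n).factorial : ℝ))

def B (n : ℕ) (t : ℝ) : ℝ := ∑' k, a n k t

lemma a_le (n k : ℕ) {t R : ℝ} (h : |t| ≤ R) : ‖a n k t‖ ≤ R ^ k / (k.factorial : ℝ) := by
  have h1 : (0 : ℝ) < k.factorial := by exact_mod_cast k.factorial_pos
  have h2 : (1 : ℝ) ≤ (k + n).factorial := by exact_mod_cast (k + n).factorial_pos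
  have h3 : |-t / 4| ≤ R := by
    rw [abs_div, abs_neg]
    have := abs_nonneg t
    rw [show |(4 : ℝ)| = 4 by norm_num]
    linarith
  rw [a, Real.norm_eq_abs, abs_div, abs_pow, abs_of_pos (by positivity : (0 : ℝ) <
    (k.factorial : ℝ) * ((k + n).factorial : ℝ))]
  have h4 : 0 ≤ R := (abs_nonneg t).trans h
  exact div_le_div₀ (by positivity) (pow_le_pow_left₀ (abs_nonneg _) h3 k) h1 (by nlinarith)

lemma a_sum (n : ℕ) (t : ℝ) : Summable fun k => a n k t :=
  Summable.of_norm_bounded (Real.summable_pow_div_factorial |t|) fun k => a_le n k le_rfl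

lemma a_deriv (n k : ℕ) (t : ℝ) : HasDerivAt (a n (k + 1)) (-a (n + 1) k t / 4) t := by
  have h1 : (0 : ℝ) < k.factorial := by exact_mod_cast k.factorial_pos
  have h2 : (0 : ℝ) < (k + 1 + n).factorial := by exact_mod_cast (k + 1 + n).factorial_pos
  have h := ((((hasDerivAt_id t).neg).div_const 4).pow (k + 1)).div_const
    (((k + 1).factorial : ℝ) * ((k + 1 + n).factorial : ℝ))
  refine HasDerivAt.congr_deriv (f := a n (k + 1)) h ?_
  rw [a, show k + (n + 1) = k + 1 + n by ring, Nat.factorial_succ k]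
  simp only [Pi.neg_apply, id, Nat.add_sub_cancel]
  push_cast
  field_simp

lemma B_deriv (n : ℕ) (t : ℝ) : HasDerivAt (B n) (-B (n + 1) t / 4) t := by
  have e : B n = fun s => a n 0 0 + ∑' k, a n (k + 1) s := by
    funext s
    rw [B, (a_sum n s).tsum_eq_zero_add]
    simp [a]
  have h := hasDerivAt_tsum_of_isPreconnected (t := Ioo (-(|t| + 1)) (|t| + 1)) (y₀ := t) (y := t)
    (g := fun k => a n (k + 1)) (g' := fun k s => -a (n + 1) k s / 4)
    (Real.summable_pow_div_factorial (|t| + 1)) isOpen_Ioo isPreconnected_Ioo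
    (fun k s _ => a_deriv n k s) (fun k s hs => by
      have h1 := a_le (n + 1) k (abs_le.2 ⟨hs.1.le, hs.2.le⟩)
      have h2 := norm_nonneg (a (n + 1) k s)
      rw [norm_div, norm_neg, show ‖(4 : ℝ)‖ = 4 by norm_num]
      linarith)
    ⟨by linarith [neg_abs_le t], by linarith [le_abs_self t]⟩
    ((summable_nat_add_iff 1).2 (a_sum n t))
    ⟨by linarith [neg_abs_le t], by linarith [le_abs_self t]⟩
  rw [tsum_div_const, tsum_neg] at h
  rw [e]
  exact h.const_add _

lemma B_smooth (k : ℕ) : ∀ n, ContDiff ℝ k (B n) := by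
  induction k with
  | zero =>
    exact fun n => contDiff_zero.2
      (continuous_iff_continuousAt.2 fun t => (B_deriv n t).continuousAt)
  | succ k ih =>
    intro n
    push_cast
    rw [contDiff_succ_iff_deriv]
    refine ⟨fun t => (B_deriv n t).differentiableAt, by simp, ?_⟩
    have : deriv (B n) = fun t => -B (n + 1) t / 4 := funext fun t => (B_deriv n t).deriv
    rw [this]
    exact (ih (n + 1)).neg.div_const 4

lemma B_zero (n : ℕ) : B n 0 = 1 / (n.factorial : ℝ) := by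
  rw [B, (a_sum n 0).tsum_eq_zero_add]
  simp [a]

lemma B_rec (t : ℝ) : B 0 t = B 1 t - t / 4 * B 2 t := by
  have h1 := (a_sum 0 t).tsum_eq_zero_add
  have h2 := (a_sum 1 t).tsum_eq_zero_add
  have h3 : ∑' k, a 0 (k + 1) t = ∑' k, a 1 (k + 1) t - t / 4 * ∑' k, a 2 k t := by
    rw [← tsum_mul_left, ← ((summable_nat_add_iff 1).2 (a_sum 1 t)).tsum_sub
      ((a_sum 2 t).mul_left _)]
    refine tsum_congr fun k => ?_
    have h1 : (0 : ℝ) < k.factorial := by exact_mod_cast k.factorial_pos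
    simp only [a, add_zero, show k + 2 = k + 1 + 1 from rfl, Nat.factorial_succ]
    push_cast
    field_simp
    ring
  simp only [B]
  rw [h1, h2, h3]
  simp [a]
  ring

section root

variable {F G G' : ℝ → ℝ} (dG : ∀ t, HasDerivAt G (G' t) t) (eG : ∀ t, G t + t * G' t = F t / 2)

include dG eG

lemma tG (t : ℝ) : HasDerivAt (fun s => s * G s) (F t / 2) t := by
  refine HasDerivAt.congr_deriv (f := fun s => s * G s) ((hasDerivAt_id t).mul (dG t)) ?_
  rw [← eG]; simp

lemma G_pos (F0 : F 0 = 1) {j : ℝ} (h : ∀ x ∈ Ico 0 j, 0 < F (x ^ 2)) :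
    ∀ x ∈ Icc 0 j, 0 < G (x ^ 2) := by
  intro x hx
  rcases hx.1.eq_or_lt with rfl | h0
  · have := eG 0
    simp only [F0] at this
    norm_num
    linarith
  have hm : StrictMonoOn (fun s => s * G s) (Icc 0 (x ^ 2)) := by
    refine strictMonoOn_of_deriv_pos (convex_Icc _ _)
      (fun s _ => (tG dG eG s).continuousAt.continuousWithinAt) fun s hs => ?_
    rw [interior_Icc] at hs
    rw [(tG dG eG s).deriv]
    have := h √s ⟨sqrt_nonneg _, lt_of_lt_of_le ((sqrt_lt' h0).2 hs.2) hx.2⟩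
    rw [sq_sqrt hs.1.le] at this
    linarith
  have h1 : (0 : ℝ) < x ^ 2 := by positivity
  have h2 := hm ⟨le_rfl, h1.le⟩ ⟨h1.le, le_rfl⟩ h1
  simp only [zero_mul] at h2
  exact (mul_pos_iff_of_pos_left h1).1 h2

end root

end H311

open H311

theorem bes : S_bes := by
  let F : ℝ → ℝ := B 0
  let G : ℝ → ℝ := fun t => B 1 t / 2
  let G' : ℝ → ℝ := fun t => -B 2 t / 4 / 2
  have dF : ∀ t, HasDerivAt F (-G t / 2) t := fun t => by
    refine (B_deriv 0 t).congr_deriv ?_
    simp only [G]; ring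
  have dG : ∀ t, HasDerivAt G (G' t) t := fun t => (B_deriv 1 t).div_const 2
  have eG : ∀ t, G t + t * G' t = F t / 2 := fun t => by
    simp only [F, G, G', B_rec t]; ring
  have F0 : F 0 = 1 := by simp [F, B_zero]
  have cF : Continuous F := continuous_iff_continuousAt.2 fun t => (dF t).continuousAt
  have cG : Continuous G := continuous_iff_continuousAt.2 fun t => (dG t).continuousAt
  let Z : Set ℝ := {x | 0 ≤ x ∧ F (x ^ 2) ≤ |x * G (x ^ 2)|}
  have hZc : IsClosed Z := (isClosed_le continuous_const continuous_id).inter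
    (isClosed_le (f := fun x : ℝ => F (x ^ 2)) (g := fun x => |x * G (x ^ 2)|)
      (by fun_prop) (by fun_prop))
  have hZb : BddBelow Z := ⟨0, fun x hx => hx.1⟩
  have hZn : Z.Nonempty := by
    by_contra hne
    have h1 : ∀ x, 0 ≤ x → |x * G (x ^ 2)| < F (x ^ 2) := fun x hx =>
      not_le.1 fun h => hne ⟨x, hx, h⟩
    have h2 := G_pos dG eG F0 (j := 2) fun x hx => (abs_nonneg _).trans_lt (h1 x hx.1)
    have dH : ∀ t, HasDerivAt (fun s => s * G s - s * F s / 2) (t * G t / 4) t := fun t => by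
      refine HasDerivAt.congr_deriv (f := fun s => s * G s - s * F s / 2)
        ((tG dG eG t).sub (((hasDerivAt_id t).mul (dF t)).div_const 2)) ?_
      simp only [id]; ring
    have hm : MonotoneOn (fun s => s * G s - s * F s / 2) (Icc 0 4) := by
      refine monotoneOn_of_deriv_nonneg (convex_Icc _ _)
        (fun s _ => (dH s).continuousAt.continuousWithinAt)
        (fun s _ => (dH s).differentiableAt.differentiableWithinAt) fun s hs => ?_
      rw [interior_Icc] at hs
      rw [(dH s).deriv]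
      have := h2 √s ⟨sqrt_nonneg _, (sqrt_le_left (by norm_num)).2 (by linarith [hs.2])⟩
      rw [sq_sqrt hs.1.le] at this
      have := hs.1
      positivity
    have h3 := hm ⟨le_rfl, by norm_num⟩ ⟨by norm_num, le_rfl⟩ (by norm_num : (0 : ℝ) ≤ 4)
    have h4 := (le_abs_self _).trans_lt (h1 2 (by norm_num))
    norm_num at h3 h4
    linarith
  have hj := hZc.csInf_mem hZn hZb
  set j := sInf Z with hjd
  have h1 : ∀ x ∈ Ico 0 j, |x * G (x ^ 2)| < F (x ^ 2) := fun x hx =>
    not_le.1 fun h => (csInf_le hZb (show x ∈ Z from ⟨hx.1, h⟩)).not_gt hx.2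
  have j0 : 0 < j := hj.1.lt_of_ne fun h => by
    have := hj.2
    rw [← h] at this
    norm_num [F0] at this
  have h2 := G_pos dG eG F0 (j := j) fun x hx => (abs_nonneg _).trans_lt (h1 x hx)
  have h3 : 0 < j * G (j ^ 2) := mul_pos j0 (h2 j ⟨j0.le, le_rfl⟩)
  have h4 : j * G (j ^ 2) ≤ F (j ^ 2) := by
    have hc : IsClosed {x : ℝ | x * G (x ^ 2) ≤ F (x ^ 2)} := isClosed_le (by fun_prop) (by fun_prop)
    have : closure (Ico 0 j) ⊆ {x : ℝ | x * G (x ^ 2) ≤ F (x ^ 2)} :=
      hc.closure_subset_iff.2 fun x hx => (le_abs_self _).trans (h1 x hx).le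
    rw [closure_Ico j0.ne] at this
    exact this ⟨j0.le, le_rfl⟩
  have h5 : j * G (j ^ 2) = F (j ^ 2) := h4.antisymm (by simpa [abs_of_pos h3] using hj.2)
  refine ⟨j, F, G, G', j0, fun k => B_smooth k 0, fun k => (B_smooth k 1).div_const 2, dF, dG, eG,
    F0, fun x hx => ?_, h2, fun x hx => (le_abs_self _).trans_lt (h1 x hx), h5⟩
  rcases hx.2.eq_or_lt with rfl | h
  · exact h5 ▸ h3
  · exact (abs_nonneg _).trans_lt (h1 x ⟨hx.1, h⟩)

theorem discEig : S_disc := by
  intro j F G G' hB r μ hr hμ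
  let s : ℝ × ℝ → ℝ := fun x => μ ^ 2 * (x.1 ^ 2 + x.2 ^ 2)
  have cs : ∀ k : ℕ, ContDiff ℝ k s := fun k => by fun_prop
  have cR : ∀ k : ℕ, ContDiff ℝ k (fun t : ℝ => (t : ℂ)) := fun k => Complex.ofRealCLM.contDiff
  refine ⟨fun x => (F (s x) : ℂ),
    fun x => Complex.I * μ * ((x.1 : ℂ) + Complex.I * (x.2 : ℂ)) * (G (s x) : ℂ),
    fun k => (cR k).comp ((hB.sF k).comp (cs k)),
    fun k => (contDiff_const.mul (((cR k).comp contDiff_fst).add
      (contDiff_const.mul ((cR k).comp contDiff_snd)))).mul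
      ((cR k).comp ((hB.sG k).comp (cs k))),
    ⟨0, by simpa using pow_pos hr 2, Or.inl (by simp [s, hB.F0])⟩, fun x _ => ?_, fun x hx => ?_⟩
  · have ds := (((hasFDerivAt_fst (𝕜 := ℝ) (p := x)).pow 2).add
      ((hasFDerivAt_snd (𝕜 := ℝ) (p := x)).pow 2)).const_mul (μ ^ 2)
    have ds' : HasFDerivAt s _ x := ds
    have d1 := Complex.ofRealCLM.hasFDerivAt.comp x ((hB.dF (s x)).comp_hasFDerivAt x ds')
    have d2 := Complex.ofRealCLM.hasFDerivAt.comp x ((hB.dG (s x)).comp_hasFDerivAt x ds')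
    have d3 := (((Complex.ofRealCLM.hasFDerivAt.comp x (hasFDerivAt_fst (𝕜 := ℝ) (p := x))).add
      ((Complex.ofRealCLM.hasFDerivAt.comp x (hasFDerivAt_snd (𝕜 := ℝ) (p := x))).const_mul
        Complex.I)).const_mul (Complex.I * μ)).mul d2
    have e1 : fderiv ℝ (fun x => (F (s x) : ℂ)) x = _ := d1.fderiv
    have e2 : fderiv ℝ (fun x : ℝ × ℝ =>
      Complex.I * μ * ((x.1 : ℂ) + Complex.I * (x.2 : ℂ)) * (G (s x) : ℂ)) x = _ := d3.fderiv
    have e3 : (G (s x) : ℂ) + μ ^ 2 * (x.1 ^ 2 + x.2 ^ 2) * G' (s x) = F (s x) / 2 := by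
      have := congrArg (fun t : ℝ => (t : ℂ)) (hB.eG (s x))
      simpa [s] using this
    rw [e1, e2]
    constructor
    · simp
      linear_combination (2 * (μ : ℂ)) * e3 - (2 * μ * G (s x) +
        2 * μ ^ 3 * G' (s x) * (x.1 ^ 2 + x.2 ^ 2 + Complex.I * x.1 * x.2)) * Complex.I_mul_I
    · simp
      linear_combination (-(μ : ℂ) ^ 2 * G (s x) * x.2) * Complex.I_mul_I
  · have e1 : s x = j ^ 2 := by
      simp only [s, hx, hμ]; field_simp
    have e2 := congrArg (fun t : ℝ => (t : ℂ)) hB.eq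
    have hr' : (r : ℂ) ≠ 0 := by exact_mod_cast hr.ne'
    simp only [e1, hμ]
    push_cast at e2 ⊢
    rw [← e2]
    field_simp

end H930Z.Dir
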