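import Mathlib

namespace Pool.Agent.H311Z.Poly

/-- `P d`: the nonzero polynomials in the indeterminates `x₀, x₁, …` with nonnegative integer
coefficients, zero constant term and degree at most `d` in each single variable. -/
def P (d : ℕ) : Set (MvPolynomial ℕ ℕ) :=
  {f | f ≠ 0 ∧ MvPolynomial.constantCoeff f = 0 ∧ ∀ i, f.degreeOf i ≤ d}

/-- The pattern `{x, y, x + y, x y}` is partition regular over `P d`: every colouring of `P d` with
finitely many colours has `x, y` with `x, y, x + y, x y` all in `P d` and all of one colour. -/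
def PartitionRegular (d : ℕ) : Prop :=
  ∀ r : ℕ, 1 ≤ r → ∀ c : P d → Fin r,
    ∃ (x y : MvPolynomial ℕ ℕ) (hx : x ∈ P d) (hy : y ∈ P d) (hs : x + y ∈ P d)
      (hp : x * y ∈ P d),
      c ⟨y, hy⟩ = c ⟨x, hx⟩ ∧ c ⟨x + y, hs⟩ = c ⟨x, hx⟩ ∧ c ⟨x * y, hp⟩ = c ⟨x, hx⟩

end Pool.Agent.H311Z.Poly
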