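import Pool.Agent.H311Z.PolyDefs

namespace Pool.Agent.H311Z.Poly

open MvPolynomial

/-- the largest degree in a single variable -/
noncomputable def D (f : MvPolynomial ℕ ℕ) : ℕ := f.vars.sup (fun i => f.degreeOf i)

lemma degreeOf_le_D (f : MvPolynomial ℕ ℕ) (i : ℕ) : f.degreeOf i ≤ D f := by
  by_cases h : i ∈ f.vars
  · exact Finset.le_sup (f := fun i => f.degreeOf i) h
  · have : f.degreeOf i = 0 := by
      rw [degreeOf_eq_sup]
      refine Nat.eq_zero_of_le_zero (Finset.sup_le fun m hm => ?_)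
      by_contra hne
      exact h ((mem_vars_iff_mem_support i).2 ⟨m, hm, Finsupp.mem_support_iff.2 (by omega)⟩)
    omega

lemma D_le {d : ℕ} {f : MvPolynomial ℕ ℕ} (hf : f ∈ P d) : D f ≤ d :=
  Finset.sup_le fun i _ => hf.2.2 i

lemma exists_top {d : ℕ} {f : MvPolynomial ℕ ℕ} (hf : f ∈ P d) :
    0 < D f ∧ ∃ i, f.degreeOf i = D f := by
  obtain ⟨m, hm⟩ := support_nonempty.2 hf.1
  have hm0 : m ≠ 0 := by
    rintro rfl
    exact (mem_support_iff.1 hm) hf.2.1
  obtain ⟨j, hj⟩ := Finsupp.support_nonempty_iff.2 hm0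
  have hjv : j ∈ f.vars := (mem_vars_iff_mem_support j).2 ⟨m, hm, hj⟩
  have h1 : 0 < f.degreeOf j :=
    lt_of_lt_of_le (Nat.pos_of_ne_zero (Finsupp.mem_support_iff.1 hj)) (monomial_le_degreeOf j hm)
  refine ⟨lt_of_lt_of_le h1 (degreeOf_le_D f j), ?_⟩
  obtain ⟨i, _, hi⟩ := Finset.exists_mem_eq_sup f.vars ⟨j, hjv⟩ (fun i => f.degreeOf i)
  exact ⟨i, hi.symm⟩

lemma exists_mono {f : MvPolynomial ℕ ℕ} {i : ℕ} (h : 0 < f.degreeOf i) :
    ∃ m ∈ f.support, m i ≠ 0 := by
  by_contra hcon
  push Not at hcon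
  have : f.degreeOf i = 0 := by
    rw [degreeOf_eq_sup]
    exact Nat.eq_zero_of_le_zero (Finset.sup_le fun m hm => (hcon m hm).le)
  omega

lemma add_mem_support_mul {f g : MvPolynomial ℕ ℕ} {a b : ℕ →₀ ℕ} (ha : a ∈ f.support)
    (hb : b ∈ g.support) : a + b ∈ (f * g).support := by
  classical
  rw [mem_support_iff, coeff_mul]
  have h1 : coeff a f * coeff b g ≤
      ∑ x ∈ Finset.HasAntidiagonal.antidiagonal (a + b), coeff x.1 f * coeff x.2 g :=
    Finset.single_le_sum (f := fun x : (ℕ →₀ ℕ) × (ℕ →₀ ℕ) => coeff x.1 f * coeff x.2 g)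
      (fun _ _ => Nat.zero_le _) (a := (a, b)) (by simp)
  have h2 : 0 < coeff a f * coeff b g :=
    Nat.mul_pos (Nat.pos_of_ne_zero (mem_support_iff.1 ha))
      (Nat.pos_of_ne_zero (mem_support_iff.1 hb))
  omega

lemma degreeOf_le_add_left (f g : MvPolynomial ℕ ℕ) (i : ℕ) :
    f.degreeOf i ≤ (f + g).degreeOf i := by
  rw [degreeOf_eq_sup i f]
  refine Finset.sup_le fun m hm => monomial_le_degreeOf i ?_
  rw [mem_support_iff] at hm ⊢
  rw [coeff_add]
  omega

/-- the graph on the variables of top degree (two joined when a monomial holds both) is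
disconnected -/
def Split (f : MvPolynomial ℕ ℕ) : Prop :=
  ∃ A : Set ℕ, (∃ i ∈ A, f.degreeOf i = D f) ∧ (∃ j ∉ A, f.degreeOf j = D f) ∧
    ∀ m ∈ f.support, ∀ i ∈ A, ∀ j ∉ A, f.degreeOf i = D f → f.degreeOf j = D f →
      m i = 0 ∨ m j = 0

lemma split_add {d : ℕ} {x y : MvPolynomial ℕ ℕ} (hx : x ∈ P d) (hy : y ∈ P d)
    (h1 : D y = D x) (h2 : D (x + y) = D x) (h3 : D (x * y) = D x) : Split (x + y) := by
  have hmul : ∀ i, x.degreeOf i + y.degreeOf i ≤ D x := fun i => by
    rw [← degreeOf_mul_eq hx.1 hy.1, ← h3]; exact degreeOf_le_D _ _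
  obtain ⟨hpos, i0, hi0⟩ := exists_top hx
  obtain ⟨_, j0, hj0⟩ := exists_top hy
  refine ⟨{i | x.degreeOf i = D x}, ⟨i0, hi0, ?_⟩, ⟨j0, ?_, ?_⟩, ?_⟩
  · have := degreeOf_le_add_left x y i0
    have := degreeOf_le_D (x + y) i0
    omega
  · have := hmul j0
    simp only [Set.mem_ofPred_eq]
    omega
  · have := degreeOf_le_add_left y x j0
    rw [add_comm y x] at this
    have := degreeOf_le_D (x + y) j0
    omega
  · intro m hm i hi j hj _ hjt
    simp only [Set.mem_ofPred_eq] at hi hj
    have hjy : y.degreeOf j = D x := by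
      have := degreeOf_add_le j x y
      have := degreeOf_le_D x j
      have := degreeOf_le_D y j
      omega
    classical
    rcases Finset.mem_union.1 (support_add hm) with h | h
    · right
      have := monomial_le_degreeOf j h
      have := hmul j
      omega
    · left
      have := monomial_le_degreeOf i h
      have := hmul i
      omega

lemma not_split_mul {d : ℕ} {x y : MvPolynomial ℕ ℕ} (hx : x ∈ P d) (hy : y ∈ P d)
    (h1 : D y = D x) (h3 : D (x * y) = D x) : ¬ Split (x * y) := by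
  have hmul : ∀ i, (x * y).degreeOf i = x.degreeOf i + y.degreeOf i := fun i =>
    degreeOf_mul_eq hx.1 hy.1
  obtain ⟨hpos, i0, hi0⟩ := exists_top hx
  obtain ⟨_, j0, hj0⟩ := exists_top hy
  rintro ⟨A, ⟨a, haA, ha⟩, ⟨b, hbA, hb⟩, hA⟩
  have ti0 : (x * y).degreeOf i0 = D (x * y) := by
    have := degreeOf_le_D (x * y) i0
    have := hmul i0
    omega
  have tj0 : (x * y).degreeOf j0 = D (x * y) := by
    have := degreeOf_le_D (x * y) j0
    have := hmul j0
    omega
  have key : ∀ u v, 0 < x.degreeOf u → 0 < y.degreeOf v → (x * y).degreeOf u = D (x * y) →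
      (x * y).degreeOf v = D (x * y) → (u ∈ A ↔ v ∈ A) := by
    intro u v hu hv tu tv
    obtain ⟨m, hm, hmu⟩ := exists_mono hu
    obtain ⟨n, hn, hnv⟩ := exists_mono hv
    have hmn := add_mem_support_mul hm hn
    have e1 : (m + n) u ≠ 0 := by simp only [Finsupp.add_apply]; omega
    have e2 : (m + n) v ≠ 0 := by simp only [Finsupp.add_apply]; omega
    constructor
    · intro h
      by_contra h'
      rcases hA _ hmn u h v h' tu tv with h | h <;> contradiction
    · intro h
      by_contra h'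
      rcases hA _ hmn v h u h' tv tu with h | h <;> contradiction
  have h00 := key i0 j0 (by omega) (by omega) ti0 tj0
  have side : ∀ u, (x * y).degreeOf u = D (x * y) → (u ∈ A ↔ i0 ∈ A) := by
    intro u tu
    by_cases hu : 0 < x.degreeOf u
    · exact (key u j0 hu (by omega) tu tj0).trans h00.symm
    · have : 0 < y.degreeOf u := by
        have := hmul u
        omega
      exact (key i0 u (by omega) this ti0 tu).symm
  exact hbA ((side b hb).2 ((side a ha).1 haA))

theorem main (d : ℕ) : ¬ PartitionRegular d := by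
  classical
  intro h
  let c : P d → Fin (2 * d + 2) := fun f =>
    ⟨2 * D f.1 + (if Split f.1 then 1 else 0), by
      have := D_le f.2
      split_ifs <;> omega⟩
  obtain ⟨x, y, hx, hy, hs, hp, e1, e2, e3⟩ := h (2 * d + 2) (by omega) c
  simp only [c, Fin.mk.injEq] at e1 e2 e3
  have h1 : D y = D x := by split_ifs at e1 <;> omega
  have h2 : D (x + y) = D x := by split_ifs at e2 <;> omega
  have h3 : D (x * y) = D x := by split_ifs at e3 <;> omega
  have s1 := split_add hx hy h1 h2 h3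
  have s2 := not_split_mul hx hy h1 h3
  rw [if_pos s1] at e2
  rw [if_neg s2] at e3
  omega

end Pool.Agent.H311Z.Poly
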